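import Pool.Agent.U260.GZ.Stm

/-!
# Project GZ, package LIP: balls around bad points
-/

set_option autoImplicit false

namespace Pool.Agent.U928.GZ

open Complex Filter Topology MeasureTheory Set
open Pool.Agent.N879.GD
open Pool.Agent.Y969.GP (ff)

lemma ff_nonneg (u : ℝ) : 0 ≤ ff u := by unfold ff; positivity

lemma prod_sub_le {ι : Type*} (s : Finset ι) (a b : ι → ℝ) (M d : ℝ) (hM : 1 ≤ M) (hd : 0 ≤ d)
    (ha : ∀ j ∈ s, |a j| ≤ M) (hb : ∀ j ∈ s, |b j| ≤ M) (h : ∀ j ∈ s, |a j - b j| ≤ d) :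
    |∏ j ∈ s, a j - ∏ j ∈ s, b j| ≤ s.card * M ^ s.card * d ∧ |∏ j ∈ s, b j| ≤ M ^ s.card := by
  classical
  induction s using Finset.induction_on with
  | empty => simp
  | insert i s hi ih =>
    obtain ⟨h1, h2⟩ := ih (fun j hj => ha j (Finset.mem_insert_of_mem hj))
      (fun j hj => hb j (Finset.mem_insert_of_mem hj)) (fun j hj => h j (Finset.mem_insert_of_mem hj))
    have ha' := ha i (Finset.mem_insert_self _ _)
    have hb' := hb i (Finset.mem_insert_self _ _)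
    have h' := h i (Finset.mem_insert_self _ _)
    rw [Finset.prod_insert hi, Finset.prod_insert hi, Finset.card_insert_of_notMem hi]
    have hM0 : 0 ≤ M := by linarith
    constructor
    · have e1 : a i * ∏ j ∈ s, a j - b i * ∏ j ∈ s, b j =
          a i * (∏ j ∈ s, a j - ∏ j ∈ s, b j) + (a i - b i) * ∏ j ∈ s, b j := by ring
      rw [e1]
      calc |a i * (∏ j ∈ s, a j - ∏ j ∈ s, b j) + (a i - b i) * ∏ j ∈ s, b j| ≤
            |a i| * |∏ j ∈ s, a j - ∏ j ∈ s, b j| + |a i - b i| * |∏ j ∈ s, b j| := by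
              refine (abs_add_le _ _).trans ?_
              rw [abs_mul, abs_mul]
        _ ≤ M * (s.card * M ^ s.card * d) + d * M ^ s.card := by gcongr
        _ ≤ M * (s.card * M ^ s.card * d) + d * (M * M ^ s.card) := by
              gcongr
              exact le_mul_of_one_le_left (by positivity) hM
        _ = ((s.card + 1 : ℕ) : ℝ) * M ^ (s.card + 1) * d := by push_cast; ring
    · rw [abs_mul, pow_succ, mul_comm (M ^ s.card)]
      gcongr

lemma D0_bound {B u : ℝ} (hB : 1 ≤ B) (h1 : B⁻¹ ≤ u) (h2 : u ≤ B) : |D0 u| ≤ 5 * B := by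
  have hB0 : 0 < B := by linarith
  have hu : 0 < u := lt_of_lt_of_le (inv_pos.2 hB0) h1
  unfold D0
  rw [Real.log_div hu.ne' (by positivity)]
  have h3 : Real.log (2 * Real.pi) ≤ 2 := by
    rw [Real.log_le_iff_le_exp (by positivity)]
    have h4 : Real.exp 2 = Real.exp 1 * Real.exp 1 := by rw [← Real.exp_add]; norm_num
    have h5 := Real.exp_one_gt_d9
    have h6 := Real.pi_lt_d2
    rw [h4]
    nlinarith
  have h3' : 0 ≤ Real.log (2 * Real.pi) := Real.log_nonneg (by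
    have := Real.pi_gt_three
    linarith)
  have h4 : Real.log u ≤ B := (Real.log_le_sub_one_of_pos hu).trans (by linarith)
  have h5 : -B ≤ Real.log u := by
    have h6 : Real.log u⁻¹ ≤ u⁻¹ - 1 := Real.log_le_sub_one_of_pos (inv_pos.2 hu)
    rw [Real.log_inv] at h6
    have h7 : u⁻¹ ≤ B := inv_le_of_inv_le₀ hB0 h1
    linarith
  have h8 := Real.eulerMascheroniConstant_lt_two_thirds
  have h9 := Real.one_half_lt_eulerMascheroniConstant
  rw [abs_le]
  constructor <;> linarith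

lemma log_lip {B u v : ℝ} (hB : 0 < B) (h1 : B⁻¹ ≤ u) (h2 : B⁻¹ ≤ v) :
    Real.log u - Real.log v ≤ B * |u - v| := by
  have hu : 0 < u := lt_of_lt_of_le (inv_pos.2 hB) h1
  have hv : 0 < v := lt_of_lt_of_le (inv_pos.2 hB) h2
  rw [← Real.log_div hu.ne' hv.ne']
  have h3 : Real.log (u / v) ≤ u / v - 1 := Real.log_le_sub_one_of_pos (by positivity)
  have h4 : u / v - 1 = v⁻¹ * (u - v) := by field_simp
  have h5 : v⁻¹ ≤ B := inv_le_of_inv_le₀ hB h2
  calc Real.log (u / v) ≤ v⁻¹ * (u - v) := by rw [← h4]; exact h3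
    _ ≤ v⁻¹ * |u - v| := by gcongr; exact le_abs_self _
    _ ≤ B * |u - v| := by gcongr

lemma D0_lip {B u v : ℝ} (hB : 0 < B) (h1 : B⁻¹ ≤ u) (h2 : B⁻¹ ≤ v) :
    |D0 u - D0 v| ≤ B * |u - v| := by
  have hu : 0 < u := lt_of_lt_of_le (inv_pos.2 hB) h1
  have hv : 0 < v := lt_of_lt_of_le (inv_pos.2 hB) h2
  unfold D0
  rw [Real.log_div hu.ne' (by positivity), Real.log_div hv.ne' (by positivity)]
  have h3 := log_lip hB h1 h2
  have h4 := log_lip hB h2 h1
  rw [abs_sub_comm v u] at h4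
  rw [abs_le]
  constructor <;> linarith

/-- the difference of `dif` at two close points -/
lemma dif_close {C : ℝ} {N : ℕ} (hC : 0 < C) (h1 : ∀ u : ℝ, 0 ≤ u → ff u ≤ C * (1 + u) ^ N)
    (h2 : ∀ u v : ℝ, 0 ≤ u → 0 ≤ v → |ff u - ff v| ≤ C * (1 + u + v) ^ N * |u - v|)
    {k : ℕ} {x y : Fin k → ℝ} {A' T e t : ℝ} (hA : 1 ≤ A') (hT : 1 ≤ T) (he : 0 ≤ e)
    (hx : ∀ j, A'⁻¹ ≤ x j ∧ x j ≤ A') (hy : ∀ j, A'⁻¹ ≤ y j ∧ y j ≤ A')
    (hxy : ∀ j, |x j - y j| ≤ e) (ht1 : T ≤ t) (ht2 : t ≤ 2 * T) :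
    |dif x t - dif y t| ≤ 2 * k * ((C + 5) * (3 * (2 * A' * T)) ^ (N + 1)) ^ (k + 2) * e := by
  set B : ℝ := 2 * A' * T with hBdef
  set M : ℝ := (C + 5) * (3 * B) ^ (N + 1) with hMdef
  have hAT : 1 ≤ A' * T := one_le_mul_of_one_le_of_one_le hA hT
  have hB : 1 ≤ B := by rw [hBdef]; nlinarith
  have hB0 : 0 < B := by linarith
  have hA0 : 0 < A' := by linarith
  have ht0 : 0 ≤ t := by linarith
  have hp : 3 * B ≤ (3 * B) ^ (N + 1) := le_self_pow₀ (by linarith) (by omega)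
  have hpN : (3 * B) ^ N ≤ (3 * B) ^ (N + 1) := pow_le_pow_right₀ (by linarith) (by omega)
  have hM1 : 5 * B ≤ M := by
    rw [hMdef]
    have : 0 ≤ C * (3 * B) ^ (N + 1) := by positivity
    nlinarith
  have hM2 : C * (3 * B) ^ N ≤ M := by
    rw [hMdef]
    have h3 : C * (3 * B) ^ N ≤ C * (3 * B) ^ (N + 1) := by gcongr
    have h4 : 0 ≤ 5 * (3 * B) ^ (N + 1) := by positivity
    linarith
  have hM : 1 ≤ M := by linarith
  have hM0 : 0 ≤ M := by linarith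
  have hrange : ∀ z : ℝ, A'⁻¹ ≤ z → z ≤ A' → B⁻¹ ≤ z * t ∧ z * t ≤ B := by
    intro z hz1 hz2
    have hz0 : 0 < z := lt_of_lt_of_le (inv_pos.2 hA0) hz1
    constructor
    · calc B⁻¹ ≤ A'⁻¹ := by
            apply inv_anti₀ hA0
            rw [hBdef]
            nlinarith
        _ ≤ A'⁻¹ * t := le_mul_of_one_le_right (by positivity) (by linarith)
        _ ≤ z * t := by gcongr
    · calc z * t ≤ A' * (2 * T) := by gcongr
        _ = B := by rw [hBdef]; ring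
  have hdist : ∀ j, |x j * t - y j * t| ≤ B * e := by
    intro j
    rw [← sub_mul, abs_mul, abs_of_nonneg (by linarith : 0 ≤ t)]
    calc |x j - y j| * t ≤ e * (2 * T) := by
          have := hxy j
          gcongr
      _ ≤ B * e := by rw [hBdef]; nlinarith [mul_nonneg he (by linarith : (0:ℝ) ≤ T)]
  have hffb : ∀ z : ℝ, B⁻¹ ≤ z → z ≤ B → |ff z| ≤ M := by
    intro z hz1 hz2
    have hz0 : 0 ≤ z := (inv_pos.2 hB0).le.trans hz1
    rw [abs_of_nonneg (ff_nonneg z)]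
    refine (h1 z hz0).trans (le_trans ?_ hM2)
    gcongr
    linarith
  have hD0b : ∀ z : ℝ, B⁻¹ ≤ z → z ≤ B → |D0 z| ≤ M := fun z hz1 hz2 =>
    (D0_bound hB hz1 hz2).trans hM1
  have key1 := prod_sub_le Finset.univ (fun j => ff (x j * t)) (fun j => ff (y j * t)) M
    (M * (B * e)) hM (by positivity)
    (fun j _ => hffb _ (hrange _ (hx j).1 (hx j).2).1 (hrange _ (hx j).1 (hx j).2).2)
    (fun j _ => hffb _ (hrange _ (hy j).1 (hy j).2).1 (hrange _ (hy j).1 (hy j).2).2)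
    (fun j _ => by
      obtain ⟨a1, a2⟩ := hrange _ (hx j).1 (hx j).2
      obtain ⟨b1, b2⟩ := hrange _ (hy j).1 (hy j).2
      have c1 : 0 ≤ x j * t := (inv_pos.2 hB0).le.trans a1
      have c2 : 0 ≤ y j * t := (inv_pos.2 hB0).le.trans b1
      refine (h2 _ _ c1 c2).trans ?_
      have c3 : C * (1 + x j * t + y j * t) ^ N ≤ M := by
        refine le_trans ?_ hM2
        gcongr
        linarith
      have c4 := hdist j
      gcongr)
  have key2 := prod_sub_le Finset.univ (fun j => D0 (x j * t)) (fun j => D0 (y j * t)) M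
    (M * (B * e)) hM (by positivity)
    (fun j _ => hD0b _ (hrange _ (hx j).1 (hx j).2).1 (hrange _ (hx j).1 (hx j).2).2)
    (fun j _ => hD0b _ (hrange _ (hy j).1 (hy j).2).1 (hrange _ (hy j).1 (hy j).2).2)
    (fun j _ => by
      obtain ⟨a1, a2⟩ := hrange _ (hx j).1 (hx j).2
      obtain ⟨b1, b2⟩ := hrange _ (hy j).1 (hy j).2
      refine (D0_lip hB0 a1 b1).trans ?_
      have c4 := hdist j
      have c5 : B ≤ M := by linarith
      gcongr)
  have k1 := key1.1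
  have k2 := key2.1
  rw [Finset.card_univ, Fintype.card_fin] at k1 k2
  unfold dif
  have e1 : (∏ j, ff (x j * t) - ∏ j, D0 (x j * t)) - (∏ j, ff (y j * t) - ∏ j, D0 (y j * t)) =
      (∏ j, ff (x j * t) - ∏ j, ff (y j * t)) - (∏ j, D0 (x j * t) - ∏ j, D0 (y j * t)) := by ring
  rw [e1]
  calc _ ≤ |∏ j, ff (x j * t) - ∏ j, ff (y j * t)| + |∏ j, D0 (x j * t) - ∏ j, D0 (y j * t)| :=
        abs_sub _ _
    _ ≤ k * M ^ k * (M * (B * e)) + k * M ^ k * (M * (B * e)) := add_le_add k1 k2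
    _ ≤ k * M ^ k * (M * (M * e)) + k * M ^ k * (M * (M * e)) := by
        have c5 : B ≤ M := by linarith
        gcongr
    _ = 2 * k * M ^ (k + 2) * e := by ring

lemma enorm_le_one_add (z : ℂ) : ‖z‖ₑ ≤ 1 + ‖z‖ₑ ^ 2 := by
  rcases le_total (‖z‖ₑ) 1 with h | h
  · exact h.trans le_self_add
  · calc ‖z‖ₑ ≤ ‖z‖ₑ ^ 2 := le_self_pow₀ h (by norm_num)
      _ ≤ 1 + ‖z‖ₑ ^ 2 := le_add_self

/-- change of `JJ` -/
lemma JJ_close (hI : S_INT) {k : ℕ} {G : ℝ → ℂ} (hG : Gr G) {CG : ℝ} (hCG0 : 0 ≤ CG)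
    (hCG : ∀ T : ℝ, 1 ≤ T → ∫⁻ t in Ioc 0 T, ‖G t‖ₑ ^ 2 ≤ ENNReal.ofReal (CG * T ^ (2 : ℝ)))
    {x y : Fin k → ℝ} (hx : ∀ j, 0 < x j) (hy : ∀ j, 0 < y j) {T a b D : ℝ} (hT : 1 ≤ T)
    (ha : T ≤ a) (hb : b ≤ 2 * T) (hD0 : 0 ≤ D)
    (hD : ∀ t, T ≤ t → t ≤ 2 * T → |dif x t - dif y t| ≤ D) :
    JJ G x a b ≤ JJ G y a b + D * (2 * T + CG * (2 * T) ^ (2 : ℝ)) := by
  have hsub : Icc a b ⊆ Ioc 0 (2 * T) := fun t ht => ⟨by linarith [ht.1], by linarith [ht.2]⟩
  have hint : ∀ l : Fin k → ℝ, (∀ j, 0 < l j) →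
      IntegrableOn (fun t => G t * ((dif l t : ℝ) : ℂ)) (Icc a b) := by
    intro l hl
    obtain ⟨h1, h2⟩ := hI k G hG l hl (2 * T)
    have h3 := (h1.mono_set hsub).sub (h2.mono_set hsub)
    refine h3.congr ?_
    refine Filter.Eventually.of_forall ?_
    intro t
    simp only [Pi.sub_apply]
    unfold dif
    push_cast
    ring
  have hdiff : (∫ t in Icc a b, G t * ((dif x t : ℝ) : ℂ)) -
      ∫ t in Icc a b, G t * ((dif y t : ℝ) : ℂ) =
      ∫ t in Icc a b, G t * ((dif x t - dif y t : ℝ) : ℂ) := by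
    rw [← integral_sub (hint x hx) (hint y hy)]
    congr 1
    funext t
    push_cast
    ring
  have hbound : ‖∫ t in Icc a b, G t * ((dif x t - dif y t : ℝ) : ℂ)‖ ≤
      D * (2 * T + CG * (2 * T) ^ (2 : ℝ)) := by
    have h1 : ‖∫ t in Icc a b, G t * ((dif x t - dif y t : ℝ) : ℂ)‖ₑ ≤
        ENNReal.ofReal (D * (2 * T + CG * (2 * T) ^ (2 : ℝ))) := by
      calc ‖∫ t in Icc a b, G t * ((dif x t - dif y t : ℝ) : ℂ)‖ₑ ≤
            ∫⁻ t in Icc a b, ‖G t * ((dif x t - dif y t : ℝ) : ℂ)‖ₑ :=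
              enorm_integral_le_lintegral_enorm _
        _ ≤ ∫⁻ t in Icc a b, ENNReal.ofReal D * (1 + ‖G t‖ₑ ^ 2) := by
              refine setLIntegral_mono' measurableSet_Icc ?_
              intro t ht
              rw [enorm_mul, mul_comm]
              refine mul_le_mul' ?_ (enorm_le_one_add _)
              rw [← ofReal_norm]
              apply ENNReal.ofReal_le_ofReal
              rw [Complex.norm_real, Real.norm_eq_abs]
              exact hD t (by linarith [ht.1]) (by linarith [ht.2])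
        _ ≤ ∫⁻ t in Ioc 0 (2 * T), ENNReal.ofReal D * (1 + ‖G t‖ₑ ^ 2) := lintegral_mono_set hsub
        _ = ENNReal.ofReal D * (ENNReal.ofReal (2 * T) + ∫⁻ t in Ioc 0 (2 * T), ‖G t‖ₑ ^ 2) := by
              rw [lintegral_const_mul' _ _ ENNReal.ofReal_ne_top, lintegral_add_left measurable_const]
              congr 2
              rw [lintegral_one, Measure.restrict_apply MeasurableSet.univ, univ_inter,
                Real.volume_Ioc, sub_zero]
        _ ≤ ENNReal.ofReal D * (ENNReal.ofReal (2 * T) +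
              ENNReal.ofReal (CG * (2 * T) ^ (2 : ℝ))) := by
              gcongr
              exact hCG _ (by linarith)
        _ = ENNReal.ofReal (D * (2 * T + CG * (2 * T) ^ (2 : ℝ))) := by
              rw [← ENNReal.ofReal_add (by linarith) (by positivity), ← ENNReal.ofReal_mul hD0]
    rw [← ofReal_norm] at h1
    rwa [ENNReal.ofReal_le_ofReal_iff (by positivity)] at h1
  unfold JJ
  calc ‖∫ t in Icc a b, G t * ((dif x t : ℝ) : ℂ)‖ =
        ‖(∫ t in Icc a b, G t * ((dif y t : ℝ) : ℂ)) +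
          ∫ t in Icc a b, G t * ((dif x t - dif y t : ℝ) : ℂ)‖ := by
          rw [← hdiff]
          congr 1
          ring
    _ ≤ _ := (norm_add_le _ _).trans (by gcongr)

lemma Gr_norm {F : ℝ → ℂ} (hF : Gr F) : Gr (fun t => ((‖F t‖ : ℝ) : ℂ)) := by
  refine ⟨Complex.measurable_ofReal.comp hF.1.norm, ?_⟩
  intro ε hε
  obtain ⟨C, hC, h⟩ := hF.2 ε hε
  refine ⟨C, hC, fun T hT => ?_⟩
  refine le_trans (le_of_eq ?_) (h T hT)
  refine lintegral_congr (fun t => ?_)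
  congr 1
  rw [← ofReal_norm, ← ofReal_norm, Complex.norm_real, norm_norm]

theorem t_LIP (h1 : S_CRU) (h2 : S_INT) : S_LIP := by
  obtain ⟨C, N, hC, -, hf1, hf2⟩ := h1
  intro k
  refine ⟨(((N + 1) * (k + 2) + 3 : ℕ) : ℝ), by push_cast; nlinarith [Nat.cast_nonneg (α := ℝ) N, Nat.cast_nonneg (α := ℝ) k], ?_⟩
  intro F A θ ρ hF hA hθ hθ1 hρ hρ1
  obtain ⟨CG, hCG, hCG'⟩ := hF.2 1 one_pos
  obtain ⟨CG2, hCG2, hCG2'⟩ := (Gr_norm hF).2 1 one_pos
  -- the constant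
  set c₁ : ℝ := 2 * k * ((C + 5) * (3 * (2 * (2 * A))) ^ (N + 1)) ^ (k + 2) with hc1
  set c₂ : ℝ := c₁ * (2 + 4 * (CG + CG2)) with hc2
  have hc10 : 0 ≤ c₁ := by rw [hc1]; positivity
  have hc20 : 0 ≤ c₂ := by rw [hc2]; positivity
  have hlim : Tendsto (fun n : ℕ => (2 : ℝ) ^ n) atTop atTop :=
    tendsto_pow_atTop_atTop_of_one_lt (by norm_num)
  filter_upwards [hlim.eventually_ge_atTop (2 * c₂ + 1), hlim.eventually_ge_atTop (2 * A),
    hlim.eventually_ge_atTop 1] with n hn1 hn2 hn3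
  intro x hx y hy
  set T : ℝ := (2 : ℝ) ^ n with hT
  have hT0 : 0 < T := by linarith
  set K : ℕ := (N + 1) * (k + 2) + 3 with hK
  have hr : T ^ (-(K : ℝ)) = (T ^ K)⁻¹ := by rw [Real.rpow_neg hT0.le, Real.rpow_natCast]
  set e : ℝ := T ^ (-(K : ℝ)) with he
  have he0 : 0 ≤ e := by rw [hr]; positivity
  have heT : e ≤ T⁻¹ := by
    rw [hr]
    apply inv_anti₀ hT0
    exact le_self_pow₀ hn3 (by omega)
  have hA0 : 0 < A := by linarith
  have heA : e ≤ (2 * A)⁻¹ := heT.trans (inv_anti₀ (by positivity) hn2)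
  have hyx : ∀ j, |y j - x j| ≤ e := by
    intro j
    have := (mem_closedBall_iff_norm.1 hy)
    exact (norm_le_pi_norm (y - x) j).trans this
  obtain ⟨hxA, i, hi, hcase⟩ := hx
  have hinv : A⁻¹ = (2 * A)⁻¹ + (2 * A)⁻¹ := by field_simp; norm_num
  have hinv1 : (2 * A)⁻¹ ≤ A := by
    have h3 : (2 * A)⁻¹ ≤ 1 := inv_le_one_of_one_le₀ (by linarith)
    linarith
  have hyA : ∀ j, (2 * A)⁻¹ ≤ y j ∧ y j ≤ 2 * A := by
    intro j
    have h3 := abs_le.1 (hyx j)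
    obtain ⟨h4, h5⟩ := hxA j
    constructor
    · linarith [h3.1]
    · linarith [h3.2]
  have hpos2 : 0 < (2 * A)⁻¹ := by positivity
  have hxA2 : ∀ j, (2 * A)⁻¹ ≤ x j ∧ x j ≤ 2 * A := by
    intro j
    obtain ⟨h4, h5⟩ := hxA j
    constructor
    · linarith
    · linarith
  have hx0 : ∀ j, 0 < x j := fun j => lt_of_lt_of_le hpos2 (hxA2 j).1
  have hy0 : ∀ j, 0 < y j := fun j => lt_of_lt_of_le hpos2 (hyA j).1
  have hxy : ∀ j, |x j - y j| ≤ e := fun j => by rw [abs_sub_comm]; exact hyx j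
  have hD : ∀ t, T ≤ t → t ≤ 2 * T → |dif x t - dif y t| ≤
      c₁ * T ^ ((N + 1) * (k + 2)) * e := by
    intro t ht1 ht2
    have h3 := dif_close (A' := 2 * A) hC hf1 hf2 (by linarith) hn3 he0 hxA2 hyA hxy ht1 ht2
    refine h3.trans (le_of_eq ?_)
    rw [hc1]
    have h4 : 3 * (2 * (2 * A) * T) = (3 * (2 * (2 * A))) * T := by ring
    rw [h4, mul_pow _ T, ← mul_assoc, mul_pow _ (T ^ (N + 1)), ← pow_mul]
    ring
  have hDn : 0 ≤ c₁ * T ^ ((N + 1) * (k + 2)) * e := by positivity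
  have hfin : ∀ c : ℝ, 0 ≤ c → c ≤ CG + CG2 →
      c₁ * T ^ ((N + 1) * (k + 2)) * e * (2 * T + c * (2 * T) ^ (2 : ℝ)) ≤ 1 / 2 := by
    intro c hc0 hc
    have h3 : (2 * T) ^ (2 : ℝ) = 4 * T ^ 2 := by
      rw [show (2 : ℝ) = ((2 : ℕ) : ℝ) by norm_num, Real.rpow_natCast]
      push_cast
      ring
    rw [h3, hr, hK, pow_add]
    have h4 : c₁ * T ^ ((N + 1) * (k + 2)) * (T ^ ((N + 1) * (k + 2)) * T ^ 3)⁻¹ *
        (2 * T + c * (4 * T ^ 2)) = c₁ * (2 * T + c * (4 * T ^ 2)) / T ^ 3 := by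
      field_simp
    rw [h4, div_le_iff₀ (by positivity)]
    have h5 : 2 * T + c * (4 * T ^ 2) ≤ (2 + 4 * (CG + CG2)) * T ^ 2 := by
      have h6 : T ≤ T ^ 2 := le_self_pow₀ hn3 (by norm_num)
      have h7 : c * (4 * T ^ 2) ≤ (CG + CG2) * (4 * T ^ 2) := by gcongr
      nlinarith
    calc c₁ * (2 * T + c * (4 * T ^ 2)) ≤ c₁ * ((2 + 4 * (CG + CG2)) * T ^ 2) := by gcongr
      _ = c₂ * T ^ 2 := by rw [hc2]; ring
      _ ≤ 1 / 2 * T * T ^ 2 := by
          gcongr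
          linarith
      _ = 1 / 2 * T ^ 3 := by ring
  have hT1ρ : 1 ≤ T ^ (1 - ρ) := Real.one_le_rpow hn3 (by linarith)
  have hgp : ∀ j, T ≤ gp θ n j := by
    intro j
    unfold gp
    rw [← hT]
    have h3 : (0 : ℝ) ≤ (j : ℝ) / NN θ n := by positivity
    nlinarith
  have hgp2 : ∀ j, j ≤ NN θ n → gp θ n j ≤ 2 * T := by
    intro j hj
    unfold gp
    rw [← hT]
    have hNN : (0 : ℝ) < NN θ n := by
      have : 0 < NN θ n := by omega
      exact_mod_cast this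
    have h3 : (j : ℝ) / NN θ n ≤ 1 := by
      rw [div_le_one hNN]
      exact_mod_cast hj
    nlinarith
  have hone : (1 : ℝ) + 1 = 2 := by norm_num
  refine ⟨hyA, i, hi, ?_⟩
  rcases hcase with hcase | hcase
  · left
    have h3 := JJ_close h2 hF hCG.le (fun T' hT' => by have := hCG' T' hT'; rwa [hone] at this)
      hx0 hy0 hn3 (le_refl T) (hgp2 i hi.le) hDn hD
    have h4 := hfin CG hCG.le (by linarith)
    rw [one_mul] at hcase
    have h5 : JJ F x T (gp θ n i) ≤ JJ F y T (gp θ n i) + 1 / 2 := by linarith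
    linarith
  · right
    have h3 := JJ_close h2 (Gr_norm hF) hCG2.le
      (fun T' hT' => by have := hCG2' T' hT'; rwa [hone] at this)
      hx0 hy0 hn3 (hgp i) (hgp2 (i + 1) hi) hDn hD
    have h4 := hfin CG2 hCG2.le (by linarith)
    rw [one_mul] at hcase
    linarith

end Pool.Agent.U928.GZ
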